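import Pool.Agent.helper32.QS.Spec

set_option autoImplicit false

namespace QS

open scoped BigOperators commutatorElement

/-- the linear map of an element acting linearly -/
noncomputable def LI_rho (k U H : Type) [Field k] [AddCommGroup U] [Module k U] [Group H]
    [DistribMulAction H U] (h : H) (hh : h ∈ SC k U H) : Module.End k U where
  toFun := fun u => h • u
  map_add' := fun a b => smul_add h a b
  map_smul' := fun c u => hh c u

theorem LI : LI_stmt := by
  intro k U H _ _ _ _ _ _ _ _ hD S hS
  classical
  have hnt := hD.nt
  have hfa := hD.faith
  set A' : Subgroup S := (SA k U H).subgroupOf S with hA'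
  let v : (S ⧸ A') → Module.End k U := fun x => LI_rho k U H ((x.out : S) : H) (hS.hC x.out.2)
  have hv : ∀ (x : S ⧸ A') (u : U), v x u = ((x.out : S) : H) • u := fun x u => rfl
  have key : ∀ (n : ℕ) (s : Finset (S ⧸ A')), s.card = n → ∀ g : (S ⧸ A') → k,
      (∑ i ∈ s, g i • v i) = 0 → ∀ i ∈ s, g i = 0 := by
    intro n
    induction n with
    | zero =>
      intro s hs g _ i hi
      rw [Finset.card_eq_zero] at hs
      simp [hs] at hi
    | succ n ih =>
      intro s hs g hg i hi
      by_contra hgi
      have happ : ∀ u : U, (∑ m ∈ s, g m • (((m.out : S) : H) • u)) = 0 := by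
        intro u
        have := congrArg (fun T : Module.End k U => T u) hg
        simpa [LinearMap.sum_apply, hv] using this
      by_cases hall : ∀ j ∈ s, j ≠ i → g j = 0
      · -- only one coefficient
        obtain ⟨u, hu⟩ := exists_ne (0 : U)
        have h1 := happ u
        rw [Finset.sum_eq_single_of_mem i hi (fun j hj hji => by rw [hall j hj hji, zero_smul])] at h1
        rcases smul_eq_zero.1 h1 with h2 | h2
        · exact hgi h2
        · exact hu ((smul_eq_zero_iff_eq _).1 h2)
      · push Not at hall
        obtain ⟨j, hj, hji, hgj⟩ := hall
        -- the element s_i⁻¹ s_j is not a scalar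
        have hne : ((i.out : S) : H)⁻¹ * ((j.out : S) : H) ∉ SA k U H := by
          intro hmem
          apply hji
          have h3 : ((i.out : S))⁻¹ * (j.out : S) ∈ A' :=
            Subgroup.mem_subgroupOf.2 (by simpa using hmem)
          have h4 : (QuotientGroup.mk (i.out : S) : S ⧸ A') = QuotientGroup.mk (j.out : S) :=
            QuotientGroup.eq.2 h3
          rw [QuotientGroup.out_eq', QuotientGroup.out_eq'] at h4
          exact h4.symm
        have hex : ∃ t ∈ S, ((i.out : S) : H)⁻¹ * ((j.out : S) : H) * t
            ≠ t * (((i.out : S) : H)⁻¹ * ((j.out : S) : H)) := by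
          by_contra hcon
          push Not at hcon
          exact hne (hS.cent _ (S.mul_mem (S.inv_mem i.out.2) j.out.2) hcon)
        obtain ⟨t, htS, htne⟩ := hex
        -- scalars
        have hsc : ∀ m : S ⧸ A', ∃ c : kˣ, ∀ u : U, (⁅t, ((m.out : S) : H)⁆) • u = (c : k) • u :=
          fun m => hS.comm t htS _ m.out.2
        choose c hc using hsc
        have htC : ∀ (a : k) (u : U), t • (a • u) = a • (t • u) := fun a u => hS.hC htS a u
        have hconj : ∀ (m : S ⧸ A') (u : U), t • (((m.out : S) : H) • (t⁻¹ • u))
            = (c m : k) • (((m.out : S) : H) • u) := by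
          intro m u
          rw [← hc m, smul_smul, smul_smul, smul_smul, commutatorElement_def]
          congr 1
          group
        have h5 : ∀ u : U, (∑ m ∈ s, (g m * (c m : k)) • (((m.out : S) : H) • u)) = 0 := by
          intro u
          have h6 := congrArg (fun w => t • w) (happ (t⁻¹ • u))
          simp only [smul_zero, Finset.smul_sum] at h6
          rw [← h6]
          refine Finset.sum_congr rfl (fun m _ => ?_)
          rw [htC, hconj, smul_smul]
        have h7 : (∑ m ∈ s.erase i, (g m * ((c m : k) - (c i : k))) • v m) = 0 := by
          ext u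
          rw [LinearMap.sum_apply]
          simp only [LinearMap.smul_apply, hv, LinearMap.zero_apply]
          have h8 : (∑ m ∈ s, (g m * ((c m : k) - (c i : k))) • (((m.out : S) : H) • u)) = 0 := by
            have h9 : ∀ m ∈ s, (g m * ((c m : k) - (c i : k))) • (((m.out : S) : H) • u)
                = (g m * (c m : k)) • (((m.out : S) : H) • u)
                  - (c i : k) • (g m • (((m.out : S) : H) • u)) := by
              intro m _
              rw [smul_smul, ← sub_smul]
              congr 1
              ring
            rw [Finset.sum_congr rfl h9, Finset.sum_sub_distrib, h5 u, ← Finset.smul_sum, happ u,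
              smul_zero, sub_zero]
          rw [← Finset.add_sum_erase s _ hi] at h8
          simpa using h8
        have hcard : (s.erase i).card = n := by
          rw [Finset.card_erase_of_mem hi, hs]; rfl
        have h10 := ih (s.erase i) hcard _ h7 j (Finset.mem_erase.2 ⟨hji, hj⟩)
        have h11 : (c j : k) = (c i : k) := by
          rcases mul_eq_zero.1 h10 with h | h
          · exact absurd h hgj
          · exact sub_eq_zero.1 h
        -- equal commutators
        have h12 : ⁅t, ((i.out : S) : H)⁆ = ⁅t, ((j.out : S) : H)⁆ := by
          have h13 : ⁅t, ((i.out : S) : H)⁆⁻¹ * ⁅t, ((j.out : S) : H)⁆ = 1 := by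
            apply hfa
            intro u
            rw [mul_smul, inv_smul_eq_iff, hc i, hc j, h11]
          exact (inv_mul_eq_one.1 h13)
        apply htne
        generalize ((i.out : S) : H) = a at h12
        generalize ((j.out : S) : H) = b at h12
        rw [commutatorElement_def, commutatorElement_def] at h12
        have e2 : a * t⁻¹ * a⁻¹ = b * t⁻¹ * b⁻¹ := by
          have := congrArg (fun w => t⁻¹ * w) h12
          simpa [mul_assoc] using this
        calc a⁻¹ * b * t = a⁻¹ * (b * t⁻¹ * b⁻¹)⁻¹ * b := by group
          _ = a⁻¹ * (a * t⁻¹ * a⁻¹)⁻¹ * b := by rw [e2]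
          _ = t * (a⁻¹ * b) := by group
  have hli : LinearIndependent k v := by
    rw [linearIndependent_iff']
    intro s g hg i hi
    exact key s.card s rfl g hg i hi
  have hfin : Module.Finite k U := inferInstance
  have : Fintype (S ⧸ A') := Fintype.ofFinite _
  have h20 := hli.fintype_card_le_finrank
  have h21 : Module.finrank k (Module.End k U) = Module.finrank k U * Module.finrank k U :=
    Module.finrank_linearMap k k U U
  rw [h21, ← Nat.card_eq_fintype_card] at h20
  rw [pow_two]
  exact h20

end QS
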